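import Mathlib

/-!
# Reciprocals of Fermat polynomials

`1 / (x_1^n + ... + x_m^n)` is rationally integrable with respect to `x_1, ..., x_m` if and only if
`n ≠ m`. For `n = m` an integrability relation would specialise to fields of characteristic
`p ≡ 1 mod m`, where it is contradicted by the coefficient of `∏ x_i^(p-1)` in
`(x_1^m + ... + x_m^m)^(p-1)`, a multinomial coefficient prime to `p`.
-/

set_option autoImplicit false

namespace Pool.Agent.Results.MP_4362c3_ag.FermatReciprocals

open MvPolynomial

section CharP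

variable {κ : Type*} [Field κ] {m : ℕ}

/-- The Fermat polynomial. -/
noncomputable def fp (κ : Type*) [CommSemiring κ] (m n : ℕ) : MvPolynomial (Fin m) κ :=
  ∑ i, X i ^ n

theorem pderiv_pow_char {p : ℕ} [CharP κ p] (i : Fin m) (G H : MvPolynomial (Fin m) κ) :
    pderiv i (G ^ p * H) = G ^ p * pderiv i H := by
  have h0 : ((p : ℕ) : MvPolynomial (Fin m) κ) = 0 := by
    have : ((p : ℕ) : MvPolynomial (Fin m) κ) = C ((p : ℕ) : κ) := by simp
    rw [this, CharP.cast_eq_zero, C_0]
  rw [pderiv_mul, pderiv_pow, h0]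
  ring

/-- The exponent `(p - 1, ..., p - 1)`. -/
noncomputable def full (m r : ℕ) : Fin m →₀ ℕ := Finsupp.equivFunOnFinite.symm fun _ => r

theorem coeff_fp_pow {p t : ℕ} [CharP κ p] (hp : p.Prime) (hpt : p = m * t + 1) :
    coeff (full m (p - 1)) ((fp κ m m) ^ (p - 1)) ≠ 0 := by
  have hm : m ≠ 0 := by
    rintro rfl
    rw [zero_mul, zero_add] at hpt
    exact hp.one_lt.ne' hpt
  have h1 : fp κ m m = expand m (∑ i, X i) := by
    simp [fp]
  have h2 : full m (p - 1) = m • full m t := by
    ext i
    simp [full, hpt]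
  rw [h1, ← map_pow, h2, coeff_expand_smul m hm, coeff_sum_X_pow_of_fintype]
  have hsum : (full m t).sum (fun _ k => k) = p - 1 := by
    rw [Finsupp.sum_fintype _ _ (fun _ => rfl)]
    simp [full, hpt]
  rw [if_pos hsum]
  intro hcon
  rw [CharP.cast_eq_zero_iff κ p] at hcon
  have h3 : Nat.multinomial (full m t).support (full m t) ∣ (p - 1).factorial := by
    have := Nat.multinomial_spec (full m t).support (full m t)
    rw [show ∑ i ∈ (full m t).support, (full m t) i = p - 1 from hsum] at this
    exact Dvd.intro_left _ this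
  have h4 : p ∣ (p - 1).factorial := by
    refine dvd_trans hcon ?_
    rw [Finsupp.multinomial_eq]
    exact h3
  rw [hp.dvd_factorial] at h4
  have := hp.pos
  omega

theorem isHomogeneous_fp : (fp κ m m).IsHomogeneous m :=
  IsHomogeneous.sum _ _ _ fun i _ => by
    simpa using (isHomogeneous_X κ i).pow m

theorem coeff_pow_smul {p : ℕ} [CharP κ p] (hp : p.Prime) (Q : MvPolynomial (Fin m) κ)
    (b : Fin m →₀ ℕ) : coeff (p • b) (Q ^ p) = (coeff b Q) ^ p := by
  have : ExpChar κ p := ExpChar.prime hp
  rw [← map_frobenius_expand p, coeff_map, coeff_expand_smul p hp.ne_zero, frobenius_def]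

theorem dvd_of_coeff_pow {p : ℕ} [CharP κ p] (hp : p.Prime) {Q : MvPolynomial (Fin m) κ}
    {v : Fin m →₀ ℕ} (hv : coeff v (Q ^ p) ≠ 0) (i : Fin m) : p ∣ v i := by
  have : ExpChar κ p := ExpChar.prime hp
  by_contra hi
  apply hv
  rw [← map_frobenius_expand p, coeff_map, coeff_expand_of_not_dvd Q hi, map_zero]

/-- The contradiction in characteristic `p ≡ 1 mod m`. -/
theorem core {p t : ℕ} [CharP κ p] (hp : p.Prime) (hpt : p = m * t + 1)
    (P : Fin m → MvPolynomial (Fin m) κ) (Q : MvPolynomial (Fin m) κ) (hQ : Q ≠ 0)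
    (h : Q ^ 2 = fp κ m m * ∑ i, (pderiv i (P i) * Q - P i * pderiv i Q)) : False := by
  obtain ⟨r, rfl⟩ : ∃ r, p = r + 2 := ⟨p - 2, by have := hp.two_le; omega⟩
  set F := fp κ m m with hF
  have hchar : ((r + 1 : ℕ) : MvPolynomial (Fin m) κ) = -1 := by
    have h0 : (((r + 2 : ℕ) : ℕ) : MvPolynomial (Fin m) κ) = 0 := by
      have : (((r + 2 : ℕ) : ℕ) : MvPolynomial (Fin m) κ) = C (((r + 2 : ℕ) : ℕ) : κ) := by simp
      rw [this, CharP.cast_eq_zero, C_0]
    push_cast at h0 ⊢
    linear_combination h0
  have key : F ^ (r + 1) * Q ^ (r + 2)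
      = ∑ i, pderiv i (F ^ (r + 2) * (P i * Q ^ (r + 1))) := by
    have h1 : ∀ i, pderiv i (F ^ (r + 2) * (P i * Q ^ (r + 1)))
        = F ^ (r + 2) * Q ^ r * (pderiv i (P i) * Q - P i * pderiv i Q) := by
      intro i
      rw [pderiv_pow_char, pderiv_mul, pderiv_pow, hchar, Nat.add_sub_cancel]
      ring
    simp only [h1]
    rw [← Finset.mul_sum]
    calc F ^ (r + 1) * Q ^ (r + 2) = F ^ (r + 1) * Q ^ r * Q ^ 2 := by ring
      _ = _ := by rw [h]; ring
  obtain ⟨b, hb⟩ := (MvPolynomial.ne_zero_iff).1 hQ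
  set a : Fin m →₀ ℕ := full m (r + 1) + (r + 2) • b with ha
  -- the coefficient of `a` on the right is zero
  have hright : coeff a (∑ i, pderiv i (F ^ (r + 2) * (P i * Q ^ (r + 1)))) = 0 := by
    rw [coeff_sum]
    refine Finset.sum_eq_zero fun i _ => ?_
    rw [coeff_pderiv]
    have : ((a i : ℕ) : κ) + 1 = 0 := by
      have h2 : a i + 1 = (r + 2) * (1 + b i) := by
        simp only [ha, full, Finsupp.add_apply, Finsupp.smul_apply, smul_eq_mul,
          Finsupp.equivFunOnFinite_symm_apply_apply]
        ring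
      have h3 : ((a i + 1 : ℕ) : κ) = 0 := by
        rw [h2, Nat.cast_mul, CharP.cast_eq_zero, zero_mul]
      exact_mod_cast h3
    rw [this, mul_zero]
  have hcoefQ : coeff ((r + 2) • b) (Q ^ (r + 2)) ≠ 0 := by
    rw [coeff_pow_smul hp]
    exact pow_ne_zero _ hb
  have hleft : coeff a (F ^ (r + 1) * Q ^ (r + 2)) ≠ 0 := by
    rw [coeff_mul, Finset.sum_eq_single_of_mem (full m (r + 1), (r + 2) • b)]
    · refine mul_ne_zero ?_ hcoefQ
      exact coeff_fp_pow (κ := κ) (p := r + 2) hp hpt
    · exact Finset.HasAntidiagonal.mem_antidiagonal.2 rfl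
    · rintro ⟨u, v⟩ huv hne
      replace huv : u + v = a := Finset.HasAntidiagonal.mem_antidiagonal.1 huv
      by_contra hcon
      have hu := left_ne_zero_of_mul hcon
      have hv := right_ne_zero_of_mul hcon
      apply hne
      -- degree of `u`
      have hdeg : u.degree = m * (r + 1) := by
        by_contra hd
        exact hu ((isHomogeneous_fp.pow (r + 1)).coeff_eq_zero hd)
      -- all entries of `v` are divisible by `p`
      have hdvd : ∀ i, (r + 2) ∣ v i := dvd_of_coeff_pow hp hv
      choose w hw using hdvd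
      have hle : ∀ i, w i ≤ b i := by
        intro i
        have h2 : u i + v i = (r + 1) + (r + 2) * b i := by
          have := DFunLike.congr_fun huv i
          simpa [ha, full] using this
        rw [hw i] at h2
        by_contra hlt
        push Not at hlt
        have : (r + 2) * (b i + 1) ≤ (r + 2) * w i := Nat.mul_le_mul_left _ hlt
        nlinarith
      have hui : ∀ i, u i = (r + 1) + (r + 2) * (b i - w i) := by
        intro i
        have h2 : u i + v i = (r + 1) + (r + 2) * b i := by
          have := DFunLike.congr_fun huv i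
          simpa [ha, full] using this
        rw [hw i] at h2
        obtain ⟨c, hc⟩ := Nat.exists_eq_add_of_le (hle i)
        rw [hc] at h2 ⊢
        rw [Nat.add_sub_cancel_left]
        nlinarith
      have hsum : ∑ i, (r + 2) * (b i - w i) = 0 := by
        have h3 : u.degree = ∑ i, u i := by
          rw [Finsupp.degree_eq_sum]
        have h4 : ∑ i, u i = ∑ i, ((r + 1) + (r + 2) * (b i - w i)) :=
          Finset.sum_congr rfl fun i _ => hui i
        rw [Finset.sum_add_distrib, Finset.sum_const, Finset.card_univ, Fintype.card_fin,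
          smul_eq_mul] at h4
        omega
      have hbw : ∀ i, b i - w i = 0 := by
        intro i
        have := (Finset.sum_eq_zero_iff.1 hsum) i (Finset.mem_univ i)
        rcases Nat.mul_eq_zero.1 this with h | h
        · omega
        · exact h
      have hbw' : ∀ i, w i = b i := fun i => le_antisymm (hle i) (by have := hbw i; omega)
      rw [Prod.mk.injEq]
      constructor
      · ext i
        rw [hui i, hbw i, mul_zero, add_zero]
        simp [full]
      · ext i
        rw [hw i, hbw' i]
        simp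
  exact hleft (key ▸ hright)

end CharP

section Specialization

universe u

/-- A finitely generated ring of characteristic zero without zero divisors has residue fields of
characteristic `p` for all large primes `p`. -/
theorem exists_residue (A : Type u) [CommRing A] [IsDomain A] [CharZero A]
    [Algebra.FiniteType ℤ A] : ∃ N : ℕ, ∀ p : ℕ, p.Prime → N < p →
      ∃ (κ : Type u) (_ : Field κ) (_ : CharP κ p), Nonempty (A →+* κ) := by
  have hfp : (algebraMap ℤ A).FinitePresentation := by
    rw [RingHom.finitePresentation_algebraMap]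
    exact Algebra.FinitePresentation.of_finiteType.1 inferInstance
  have hcons := PrimeSpectrum.isConstructible_range_comap hfp
  obtain ⟨S, hS⟩ := PrimeSpectrum.exists_constructibleSetData_iff.2 hcons
  have hinj : Function.Injective (algebraMap ℤ A) := (algebraMap ℤ A).injective_int
  have hbot : (⊥ : PrimeSpectrum ℤ) ∈ S.toSet := by
    rw [hS]
    refine ⟨⊥, ?_⟩
    apply PrimeSpectrum.ext
    change Ideal.comap (algebraMap ℤ A) ⊥ = ⊥
    exact Ideal.comap_bot_of_injective _ hinj
  obtain ⟨C, hC, hbC⟩ := Set.mem_iUnion₂.1 hbot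
  obtain ⟨hg, hf⟩ := hbC
  have hf0 : C.f ≠ 0 := by
    intro h0
    apply hf
    rw [PrimeSpectrum.mem_zeroLocus, Set.singleton_subset_iff, h0]
    exact Ideal.zero_mem _
  have hg0 : ∀ i, C.g i = 0 := by
    intro i
    have h1 : C.g i ∈ ((⊥ : PrimeSpectrum ℤ).asIdeal : Set ℤ) := hg ⟨i, rfl⟩
    exact h1
  refine ⟨C.f.natAbs, fun p hp hNp => ?_⟩
  have hpp : Prime (p : ℤ) := Nat.prime_iff_prime_int.1 hp
  have hprime : (Ideal.span {(p : ℤ)}).IsPrime :=
    (Ideal.span_singleton_prime hpp.ne_zero).2 hpp
  have hmem : (⟨Ideal.span {(p : ℤ)}, hprime⟩ : PrimeSpectrum ℤ) ∈ S.toSet := by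
    refine Set.mem_iUnion₂.2 ⟨C, hC, ?_, ?_⟩
    · rintro _ ⟨i, rfl⟩
      rw [hg0 i]
      exact Ideal.zero_mem _
    · intro hcon
      have h1 : C.f ∈ Ideal.span {(p : ℤ)} := hcon rfl
      rw [Ideal.mem_span_singleton, Int.natCast_dvd] at h1
      have h2 := Nat.le_of_dvd (Int.natAbs_pos.2 hf0) h1
      omega
  rw [hS] at hmem
  obtain ⟨𝔓, h𝔓⟩ := hmem
  have hp0 : ((p : ℕ) : A ⧸ 𝔓.asIdeal) = 0 := by
    have h1 : (p : ℤ) ∈ Ideal.comap (algebraMap ℤ A) 𝔓.asIdeal := by
      have h2 : Ideal.comap (algebraMap ℤ A) 𝔓.asIdeal = Ideal.span {(p : ℤ)} :=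
        congrArg PrimeSpectrum.asIdeal h𝔓
      rw [h2]
      exact Ideal.mem_span_singleton_self _
    have h3 : (algebraMap ℤ A) (p : ℤ) ∈ 𝔓.asIdeal := h1
    have h4 := Ideal.Quotient.eq_zero_iff_mem.2 h3
    simpa using h4
  have hp1 : ((p : ℕ) : FractionRing (A ⧸ 𝔓.asIdeal)) = 0 := by
    have h5 := congrArg (algebraMap (A ⧸ 𝔓.asIdeal) (FractionRing (A ⧸ 𝔓.asIdeal))) hp0
    rwa [map_natCast, map_zero] at h5
  refine ⟨FractionRing (A ⧸ 𝔓.asIdeal), inferInstance, ?_, ?_⟩
  · have h6 := CharP.ringChar_of_prime_eq_zero hp hp1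
    have h7 := ringChar.charP (FractionRing (A ⧸ 𝔓.asIdeal))
    rwa [h6] at h7
  · exact ⟨(algebraMap (A ⧸ 𝔓.asIdeal) _).comp (Ideal.Quotient.mk _)⟩

/-- There is no polynomial relation expressing the integrability of `1 / ∑ x_i ^ m`. -/
theorem no_relation {k : Type u} [Field k] [CharZero k] {m : ℕ} (hm : m ≠ 0)
    (P : Fin m → MvPolynomial (Fin m) k) (Q : MvPolynomial (Fin m) k) (hQ : Q ≠ 0)
    (h : Q ^ 2 = fp k m m * ∑ i, (pderiv i (P i) * Q - P i * pderiv i Q)) : False := by
  classical
  obtain ⟨b, hb⟩ := (MvPolynomial.ne_zero_iff).1 hQ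
  set s : Finset k := insert (coeff b Q)⁻¹ (Q.coeffs ∪ Finset.univ.biUnion fun i => (P i).coeffs)
    with hs
  set A : Subalgebra ℤ k := Algebra.adjoin ℤ (s : Set k) with hA
  have hsub : (s : Set k) ⊆ A := Algebra.subset_adjoin
  have hft : Algebra.FiniteType ℤ A :=
    (Subalgebra.fg_iff_finiteType A).1 ⟨s, rfl⟩
  have hrange : ∀ R : MvPolynomial (Fin m) k, (R.coeffs : Set k) ⊆ s →
      ∃ R₀ : MvPolynomial (Fin m) A, R₀.map (algebraMap A k) = R := by
    intro R hR
    have : R ∈ Set.range (MvPolynomial.map (algebraMap A k)) := by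
      rw [mem_range_map_iff_coeffs_subset]
      intro c hc
      exact ⟨⟨c, hsub (hR hc)⟩, rfl⟩
    exact this
  obtain ⟨Q₀, hQ₀⟩ := hrange Q (by
    intro c hc
    simp only [hs, Finset.coe_insert, Finset.coe_union]
    exact Or.inr (Or.inl hc))
  have hP : ∀ i, ∃ R₀ : MvPolynomial (Fin m) A, R₀.map (algebraMap A k) = P i := by
    intro i
    refine hrange (P i) fun c hc => ?_
    simp only [hs, Finset.coe_insert, Finset.coe_union]
    refine Or.inr (Or.inr ?_)
    rw [Finset.mem_coe, Finset.mem_biUnion]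
    exact ⟨i, Finset.mem_univ i, hc⟩
  choose P₀ hP₀ using hP
  have hinj : Function.Injective (MvPolynomial.map (σ := Fin m) (algebraMap A k)) :=
    MvPolynomial.map_injective _ Subtype.val_injective
  have h0 : Q₀ ^ 2 = fp A m m * ∑ i, (pderiv i (P₀ i) * Q₀ - P₀ i * pderiv i Q₀) := by
    apply hinj
    simp only [map_pow, map_mul, map_sum, map_sub, ← pderiv_map, hQ₀, hP₀]
    rw [h]
    simp [fp]
  obtain ⟨N, hN⟩ := exists_residue A
  obtain ⟨p, hp, hNp, hmod⟩ := Nat.exists_prime_gt_modEq_one N hm
  obtain ⟨κ, hκ, hchar, ⟨ρ⟩⟩ := hN p hp hNp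
  obtain ⟨t, ht⟩ : ∃ t, p = m * t + 1 := by
    have h1 := (Nat.modEq_iff_dvd' hp.one_lt.le).1 hmod.symm
    obtain ⟨t, ht⟩ := h1
    exact ⟨t, by have := hp.one_lt; omega⟩
  have hQ1 : MvPolynomial.map ρ Q₀ ≠ 0 := by
    intro hcon
    have h1 : coeff b (MvPolynomial.map ρ Q₀) = 0 := by rw [hcon, coeff_zero]
    rw [coeff_map] at h1
    have h2 : (coeff b Q)⁻¹ ∈ A := hsub (by simp [hs])
    have h3 : (⟨(coeff b Q)⁻¹, h2⟩ : A) * coeff b Q₀ = 1 := by
      apply Subtype.ext
      change (coeff b Q)⁻¹ * ((algebraMap A k) (coeff b Q₀)) = 1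
      rw [← coeff_map, hQ₀, inv_mul_cancel₀ hb]
    have h4 := congrArg ρ h3
    rw [map_mul, h1, mul_zero, map_one] at h4
    exact zero_ne_one h4
  refine core (κ := κ) hp ht (fun i => MvPolynomial.map ρ (P₀ i)) (MvPolynomial.map ρ Q₀) hQ1 ?_
  have h5 := congrArg (MvPolynomial.map ρ) h0
  simp only [map_pow, map_mul, map_sum, map_sub, ← pderiv_map] at h5
  rw [h5]
  simp [fp]

end Specialization

section RationalFunctions

/-- The field `k(x_1, ..., x_m)` of rational functions. -/
abbrev RatFun (k : Type*) [Field k] (m : ℕ) : Type _ := FractionRing (MvPolynomial (Fin m) k)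

variable {k : Type*} [Field k] {m : ℕ}

/-- A polynomial as a rational function. -/
noncomputable abbrev toRat (a : MvPolynomial (Fin m) k) : RatFun k m :=
  algebraMap (MvPolynomial (Fin m) k) (RatFun k m) a

/-- The partial derivation `∂_{x_i}` on rational functions, defined by the quotient rule on the
reduced fraction `num f / den f`. -/
noncomputable def pd (i : Fin m) (f : RatFun k m) : RatFun k m :=
  (toRat (pderiv i (IsFractionRing.num (MvPolynomial (Fin m) k) f))
      * toRat (IsFractionRing.den (MvPolynomial (Fin m) k) f : MvPolynomial (Fin m) k)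
    - toRat (IsFractionRing.num (MvPolynomial (Fin m) k) f)
      * toRat (pderiv i (IsFractionRing.den (MvPolynomial (Fin m) k) f : MvPolynomial (Fin m) k)))
    / toRat (IsFractionRing.den (MvPolynomial (Fin m) k) f : MvPolynomial (Fin m) k) ^ 2

/-- `f` is rationally integrable with respect to `x_1, ..., x_m`. -/
def RationallyIntegrable (f : RatFun k m) : Prop :=
  ∃ u : Fin m → RatFun k m, f = ∑ i, pd i (u i)

/-- The reciprocal `1 / (x_1^n + ... + x_m^n)`. -/
noncomputable def fermatReciprocal (k : Type*) [Field k] (m n : ℕ) : RatFun k m :=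
  1 / ∑ i, toRat (X i) ^ n

theorem toRat_ne_zero {a : MvPolynomial (Fin m) k} (ha : a ≠ 0) : toRat a ≠ 0 := by
  intro h
  apply ha
  exact (IsFractionRing.injective (MvPolynomial (Fin m) k) (RatFun k m)) (by rw [map_zero]; exact h)

/-- The quotient rule for an arbitrary representation as a fraction. -/
theorem pd_div (i : Fin m) (a b : MvPolynomial (Fin m) k) (hb : b ≠ 0) :
    pd i (toRat a / toRat b)
      = (toRat (pderiv i a) * toRat b - toRat a * toRat (pderiv i b)) / toRat b ^ 2 := by
  set f := toRat a / toRat b with hf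
  set c := IsFractionRing.num (MvPolynomial (Fin m) k) f with hc
  set d : MvPolynomial (Fin m) k :=
    (IsFractionRing.den (MvPolynomial (Fin m) k) f : MvPolynomial (Fin m) k) with hd
  have hd0 : d ≠ 0 := nonZeroDivisors.ne_zero (IsFractionRing.den (MvPolynomial (Fin m) k) f).2
  have hfcd : f = toRat c / toRat d := by
    have h := IsFractionRing.mk'_num_den (MvPolynomial (Fin m) k) f
    rw [IsFractionRing.mk'_eq_div] at h
    exact h.symm
  have hd1 := toRat_ne_zero hd0
  have hb1 := toRat_ne_zero hb
  have h1 : toRat a * toRat d = toRat c * toRat b := by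
    have h2 : toRat a / toRat b = toRat c / toRat d := by rw [← hf, ← hfcd]
    rwa [div_eq_div_iff hb1 hd1] at h2
  have h3 : a * d = c * b := by
    apply IsFractionRing.injective (MvPolynomial (Fin m) k) (RatFun k m)
    rw [map_mul, map_mul]
    exact h1
  have h4 : pderiv i a * d + a * pderiv i d = pderiv i c * b + c * pderiv i b := by
    have h5 := congrArg (pderiv i) h3
    rw [pderiv_mul, pderiv_mul] at h5
    exact h5
  have h5 : toRat (pderiv i a) * toRat d + toRat a * toRat (pderiv i d)
      = toRat (pderiv i c) * toRat b + toRat c * toRat (pderiv i b) := by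
    have h6 := congrArg (algebraMap (MvPolynomial (Fin m) k) (RatFun k m)) h4
    simpa only [map_add, map_mul] using h6
  change (toRat (pderiv i c) * toRat d - toRat c * toRat (pderiv i d)) / toRat d ^ 2 = _
  rw [div_eq_div_iff (pow_ne_zero 2 hd1) (pow_ne_zero 2 hb1)]
  linear_combination (-toRat b * toRat d) * h5
    + (toRat (pderiv i d) * toRat b + toRat d * toRat (pderiv i b)) * h1

end RationalFunctions

/-- **Rational integrability of reciprocals of Fermat polynomials.** Over a field `k` of
characteristic zero, for every `m ≥ 1` (in particular every `m ≥ 4`) and every `n`, the rational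
function `1 / (x_1^n + ... + x_m^n)` is rationally integrable with respect to `x_1, ..., x_m` if and
only if `n ≠ m`. -/
theorem result {k : Type*} [Field k] [CharZero k] {m : ℕ} (hm : 1 ≤ m) (n : ℕ) :
    RationallyIntegrable (fermatReciprocal k m n) ↔ n ≠ m := by
  have hF : (∑ i, toRat (X i) ^ n : RatFun k m) = toRat (fp k m n) := by
    simp [fp, toRat]
  have hF0 : fp k m n ≠ 0 := by
    intro h0
    have h1 := congrArg (MvPolynomial.eval fun _ => (1 : k)) h0
    simp only [fp, map_sum, map_pow, eval_X, one_pow, Finset.sum_const, Finset.card_univ,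
      Fintype.card_fin, nsmul_eq_mul, mul_one, map_zero, Nat.cast_eq_zero] at h1
    omega
  have hF1 := toRat_ne_zero hF0
  constructor
  · rintro ⟨u, hu⟩ rfl
    classical
    -- a common denominator
    obtain ⟨b, hb⟩ := IsLocalization.exist_integer_multiples_of_finset
      (nonZeroDivisors (MvPolynomial (Fin n) k)) (Finset.univ.image u)
    have hP : ∀ i, ∃ P : MvPolynomial (Fin n) k, toRat P = (b : MvPolynomial (Fin n) k) • u i :=
      fun i => hb (u i) (Finset.mem_image_of_mem _ (Finset.mem_univ i))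
    choose P hP using hP
    have hb0 : (b : MvPolynomial (Fin n) k) ≠ 0 := nonZeroDivisors.ne_zero b.2
    have hb1 := toRat_ne_zero hb0
    have hu' : ∀ i, u i = toRat (P i) / toRat (b : MvPolynomial (Fin n) k) := by
      intro i
      rw [eq_div_iff hb1, hP i, Algebra.smul_def, mul_comm]
    refine no_relation (k := k) (by omega) P (b : MvPolynomial (Fin n) k) hb0 ?_
    apply IsFractionRing.injective (MvPolynomial (Fin n) k) (RatFun k n)
    have h1 : (fermatReciprocal k n n) = ∑ i, (toRat (pderiv i (P i)) * toRat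
        (b : MvPolynomial (Fin n) k) - toRat (P i) * toRat (pderiv i (b : MvPolynomial (Fin n) k)))
        / toRat (b : MvPolynomial (Fin n) k) ^ 2 := by
      rw [hu]
      refine Finset.sum_congr rfl fun i _ => ?_
      rw [hu' i, pd_div i (P i) b hb0]
    rw [fermatReciprocal, hF, ← Finset.sum_div, div_eq_div_iff hF1 (pow_ne_zero 2 hb1)] at h1
    simp only [map_pow, map_mul, map_sum, map_sub]
    linear_combination h1
  · intro hnm
    have hmn : (m : k) - (n : k) ≠ 0 := by
      rw [sub_ne_zero]
      exact_mod_cast hnm.symm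
    refine ⟨fun i => toRat (X i) / toRat (C ((m : k) - (n : k)) * fp k m n), ?_⟩
    have hden : C ((m : k) - (n : k)) * fp k m n ≠ 0 :=
      mul_ne_zero (by rwa [Ne, C_eq_zero]) hF0
    have hden1 := toRat_ne_zero hden
    rw [Finset.sum_congr rfl fun i _ => pd_div i (X i) _ hden, ← Finset.sum_div,
      fermatReciprocal, hF, div_eq_div_iff hF1 (pow_ne_zero 2 hden1)]
    have key : ∑ i : Fin m, (pderiv i (X i) * (C ((m : k) - (n : k)) * fp k m n)
        - X i * pderiv i (C ((m : k) - (n : k)) * fp k m n))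
        = (C ((m : k) - (n : k))) ^ 2 * fp k m n := by
      have h1 : ∀ i : Fin m, pderiv i (fp k m n) = C (n : k) * X i ^ (n - 1) := by
        intro i
        simp only [fp, map_sum, pderiv_pow, pderiv_X, Pi.single_apply]
        rw [Finset.sum_eq_single_of_mem i (Finset.mem_univ i)]
        · simp
        · intro j _ hj
          simp [hj]
      have h2 : ∀ i : Fin m, X i * (C (n : k) * X i ^ (n - 1))
          = (C (n : k) * X i ^ n : MvPolynomial (Fin m) k) := by
        intro i
        rcases Nat.eq_zero_or_pos n with rfl | hn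
        · simp
        · obtain ⟨r, rfl⟩ := Nat.exists_eq_succ_of_ne_zero hn.ne'
          simp only [Nat.succ_eq_add_one, Nat.add_sub_cancel]
          ring
      have h3 : ∀ i : Fin m, pderiv i (X i) * (C ((m : k) - (n : k)) * fp k m n)
          - X i * pderiv i (C ((m : k) - (n : k)) * fp k m n)
          = C ((m : k) - (n : k)) * fp k m n
            - C ((m : k) - (n : k)) * (C (n : k) * X i ^ n) := by
        intro i
        rw [pderiv_X_self, pderiv_C_mul, h1 i, one_mul, ← h2 i]
        ring
      rw [Finset.sum_congr rfl fun i _ => h3 i, Finset.sum_sub_distrib, ← Finset.mul_sum,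
        ← Finset.mul_sum, ← Finset.mul_sum]
      have h4 : ∑ i : Fin m, (X i ^ n : MvPolynomial (Fin m) k) = fp k m n := rfl
      rw [h4, Finset.sum_const, Finset.card_univ, Fintype.card_fin, nsmul_eq_mul]
      simp only [C_sub, map_natCast]
      ring
    have key1 := congrArg (algebraMap (MvPolynomial (Fin m) k) (RatFun k m)) key
    simp only [map_pow, map_mul, map_sum, map_sub] at key1 ⊢
    rw [key1]
    ring

end Pool.Agent.Results.MP_4362c3_ag.FermatReciprocals
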